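import Pool.Agent.H240.BR.Def

/-!
# Generic metrics: singular limits, statement
-/

set_option autoImplicit false
set_option linter.unusedSectionVars false

open Set Filter Topology MeasureTheory
open scoped ContDiff ComplexConjugate Real NNReal

noncomputable section

namespace Pool.Agent.H240.BS

open Pool.Agent.Y262.EG Pool.Agent.Y262.EX

/-- the set is contained in the projections of finitely many Lipschitz curves -/
def Lc {M : Type} (Ω : Set ℂ) (pr : ℂ → M) (S : Set M) : Prop :=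
  ∃ (ι : Type) (_ : Finite ι) (γ : ι → ℝ → ℂ) (L : ℝ≥0), (∀ i, LipschitzWith L (γ i)) ∧
    S ⊆ ⋃ i, pr '' (Ω ∩ γ i '' Icc 0 (2 * π))

/-- BR-5: a compact family of functions with null zero sets such that each curve with bounded speed
misses one of them -/
def StMissK : Prop :=
  ∀ (M P : Type) [MetricSpace M] [CompactSpace M] [MetricSpace P] [CompactSpace P]
    [MeasurableSpace M] [BorelSpace M] (Ω : Set ℂ) (φ : ℂ → ℝ) (pr : ℂ → M) (q : Y → P)
    (μ : Measure M), IsUT Ω φ pr q → IsArea Ω φ pr μ → ∀ R : ℝ,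
    ∃ K : Set C(M, ℝ), IsCompact K ∧
    (∀ h ∈ K, (∀ x, 0 ≤ h x) ∧ μ {x | h x = 0} = 0 ∧ Lc Ω pr {x | h x = 0}) ∧
    ∀ c : ℝ → ℂ, ContDiff ℝ 1 c → (∀ t, c t ∈ Ω) →
      (∀ t, ‖deriv c t‖ ≤ R * Real.exp (-φ (c t))) →
      ∃ h ∈ K, ∀ t ∈ Icc 0 (2 * π), h (pr (c t)) = 0

end Pool.Agent.H240.BS
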