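import Pool.Agent.H240.BR.Fin
import Pool.Agent.H240.BS.Def

/-!
# Generic metrics in the closure of the negatively curved metrics: singular limits
-/

set_option autoImplicit false
set_option linter.unusedSectionVars false

open Set Filter Topology MeasureTheory
open scoped ContDiff ComplexConjugate Real

noncomputable section

namespace Pool.Agent.H240.BS

open Pool.Agent.Y262.EG Pool.Agent.Y262.EX Pool.Agent.Y262.EL Pool.Agent.Y262.QE
open Pool.Agent.Y264.QR Pool.Agent.H240.SC Pool.Agent.H240.SG Pool.Agent.H240.CG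
open Pool.Agent.H240.AL Pool.Agent.H240.GU Pool.Agent.H240.GV Pool.Agent.H240.BR

section

variable {M : Type} [MetricSpace M] [CompactSpace M] [MeasurableSpace M] [BorelSpace M]

/-- there is a window at the scale `N` -/
def Gd (Ω : Set ℂ) (φ : ℂ → ℝ) (pr : ℂ → M) (N : ℕ) (T : Set C(M, ℝ)) (f : C(M, ℝ)) : Prop :=
  ∃ g ∈ T, ∀ ν : Measure M, IsArea Ω (fun z => φ z + f (pr z)) pr ν →
    ∀ (u : ℕ → M → ℝ) (lam : ℕ → ℝ), WkB Ω (fun z => φ z + f (pr z)) pr ν u lam →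
    ∃ Λ : ℝ, (N : ℝ) ≤ Λ ∧
      N * √Λ < ({j | (∫ x, g x * (u j x) ^ 2 ∂ν) ≤ 1 / ((N : ℝ) + 1) ∧ lam j ≤ Λ}.ncard : ℝ)

/-- each curve of bounded speed misses one of the functions -/
def Mk (Ω : Set ℂ) (φ : ℂ → ℝ) (pr : ℂ → M) (B : ℝ) (T : Set C(M, ℝ)) : Prop :=
  ∀ c : ℝ → ℂ, ContDiff ℝ 1 c → (∀ t, c t ∈ Ω) →
    (∀ t, ‖deriv c t‖ ≤ B * Real.exp (-φ (c t))) →
    ∃ h ∈ T, ∀ t ∈ Icc 0 (2 * π), h (pr (c t)) = 0

theorem dens (hWk : BR.StWk) (hAr : StArC) {G : Type} [Group G] {P : Type} [MetricSpace P]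
    [CompactSpace P] {Ω : Set ℂ} {a : G → ℂ → ℂ} {φ : ℂ → ℝ} {pr : ℂ → M} {q : Y → P} {R0 : ℝ}
    {γ₀ : G} (hA : Act G Ω a) (hI : Inva Ω φ a) (hpr : PrM Ω a pr)
    (hγ : ∀ z ∈ Ω, a γ₀ z = z + 2 * π * Complex.I) (hR : ∀ z ∈ Ω, z.re < R0)
    (hUT : IsUT Ω φ pr q) {μ : Measure M} {D : Data M} (hD : Dt Ω φ pr μ D) (hM : Nonempty M)
    {f0 : C(M, ℝ)} (hf0 : f0 ∈ Nf Ω φ pr) {ε R : ℝ} (hε : 0 < ε) (hε1 : ε ≤ 1) (hfR : ‖f0‖ < R)
    {T : Set C(M, ℝ)} (hT : Mk Ω φ pr (Real.exp (R + 1)) T) (N : ℕ) :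
    ∃ f1 ∈ closure (Nf Ω φ pr), ‖f1 - f0‖ ≤ ε ∧ ∃ η : ℝ, 0 < η ∧ ∀ f' : C(M, ℝ),
      ‖f' - f1‖ < η → Gd Ω φ pr N T f' := by
  obtain ⟨hfs, hneg, c0, hc0⟩ := hf0
  have hI0 : Inva Ω (fun z => φ z + f0 (pr z)) a := act_inva hA hI hpr hfs
  obtain ⟨P', _, _, _, _, q', hq', hUT', hall', K, hmain⟩ :=
    finA G M Ω a (fun z => φ z + f0 (pr z)) pr c0 R0 γ₀ hA hI0 hpr hγ hR hneg hc0
  obtain ⟨c', fe, ψ, τ1, -, -, h⟩ := hmain ε 0 hε
  have hτp := h.τp
  have hfe : ContDiffOn ℝ ∞ (fun z => fe (pr z)) Ω := by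
    refine (h.sm 0 le_rfl hτp).sm.congr fun z _ => ?_
    simp
  have hψ : ContDiffOn ℝ ∞ (fun z => ψ (pr z)) Ω := by
    have h1 := (h.sm (τ1 / 2) (by positivity) (by linarith)).sm
    refine ((h1.sub hfe).const_smul (τ1 / 2)⁻¹).congr fun z _ => ?_
    simp only [smul_eq_mul]
    field_simp
    ring
  have hfec := Pool.Agent.H240.NL.cont_of hUT hfe.continuousOn
  have hψc := Pool.Agent.H240.NL.cont_of hUT hψ.continuousOn
  set feC : C(M, ℝ) := ⟨fe, hfec⟩ with hfeC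
  set ψC : C(M, ℝ) := ⟨ψ, hψc⟩ with hψC
  have hf1s : ContDiffOn ℝ ∞ (fun z => (f0 + feC) (pr z)) Ω := hfs.add hfe
  have hn1 : ‖feC‖ ≤ ε := by
    rw [ContinuousMap.norm_le _ hε.le]
    intro x
    have h1 := (h.sm 0 le_rfl hτp).c0 x
    rw [zero_mul, add_zero] at h1
    exact h1
  have hn2 : ‖f0 + feC‖ ≤ R + 1 := (norm_add_le _ _).trans (by linarith)
  refine ⟨f0 + feC, ?_, ?_, ?_⟩
  · -- the closure
    rw [Metric.mem_closure_iff]
    intro ε' hε'
    obtain ⟨τ, hτ0, hτ1, hτ2⟩ : ∃ τ : ℝ, 0 < τ ∧ τ < τ1 ∧ τ * ‖ψC‖ < ε' := by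
      refine ⟨min (τ1 / 2) (ε' / (2 * (‖ψC‖ + 1))), by positivity, ?_, ?_⟩
      · exact (min_le_left _ _).trans_lt (by linarith)
      · have h1 : min (τ1 / 2) (ε' / (2 * (‖ψC‖ + 1))) * ‖ψC‖ ≤
            ε' / (2 * (‖ψC‖ + 1)) * (‖ψC‖ + 1) := by
          refine mul_le_mul (min_le_right _ _) (by linarith) (norm_nonneg _) (by positivity)
        have h2 : ε' / (2 * (‖ψC‖ + 1)) * (‖ψC‖ + 1) = ε' / 2 := by
          have : ‖ψC‖ + 1 ≠ 0 := by positivity
          field_simp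
        linarith
    have e1 : (fun z => φ z + f0 (pr z) + (fe (pr z) + τ * ψ (pr z))) =
        fun z => φ z + (f0 + feC + τ • ψC) (pr z) := by
      funext z
      show _ = φ z + (f0 (pr z) + fe (pr z) + τ * ψ (pr z))
      ring
    refine ⟨f0 + feC + τ • ψC, ⟨hf1s.add (hψ.const_smul τ), fun z hz => ?_, c', ?_⟩, ?_⟩
    · have h1 := h.neg τ hτ0 hτ1 z hz
      rwa [e1] at h1
    · have h1 := h.cu τ hτ0.le hτ1
      rwa [e1] at h1
    · rw [dist_comm, dist_eq_norm, add_sub_cancel_left, norm_smul, Real.norm_eq_abs,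
        abs_of_pos hτ0]
      exact hτ2
  · rw [add_sub_cancel_left]
    exact hn1
  · -- the function which is missed
    have e0 : (fun z => φ z + f0 (pr z) + fe (pr z)) = fun z => φ z + (f0 + feC) (pr z) := by
      funext z
      show _ = φ z + (f0 (pr z) + fe (pr z))
      ring
    have hcu : Cu Ω (fun z => φ z + (f0 + feC) (pr z)) pr c' := by
      have h1 := h.cu 0 le_rfl hτp
      have e2 : (fun z => φ z + f0 (pr z) + (fe (pr z) + 0 * ψ (pr z))) =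
          fun z => φ z + (f0 + feC) (pr z) := by
        funext z
        show _ = φ z + (f0 (pr z) + fe (pr z))
        ring
      rwa [e2] at h1
    have hIf : Inva Ω (fun z => φ z + (f0 + feC) (pr z)) a := act_inva hA hI hpr hf1s
    have hGc := hcu.gc hA hIf hpr hγ
    obtain ⟨g, hgT, hg0⟩ := hT c' (hGc.sm.of_le (by simp)) hGc.mem fun t => by
      have h1 := hGc.unit t
      have h2 : ‖deriv c' t‖ = Real.exp (Real.log ‖deriv c' t‖) :=
        (Real.exp_log (norm_pos_iff.2 (hGc.ne t))).symm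
      rw [h2, ← Real.exp_add]
      refine Real.exp_le_exp.2 ?_
      have h3 : |(f0 + feC) (pr (c' t))| ≤ R + 1 :=
        ((f0 + feC).norm_coe_le_norm _).trans hn2
      have h4 := neg_abs_le ((f0 + feC) (pr (c' t)))
      have h5 : φ (c' t) + (f0 + feC) (pr (c' t)) + Real.log ‖deriv c' t‖ = 0 := h1
      linarith
    have hAv : AvC pr c' g = 0 := by
      unfold AvC
      have h1 : ∫ t in (0 : ℝ)..(2 * π), g (pr (c' t)) = ∫ t in (0 : ℝ)..(2 * π), (0 : ℝ) := by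
        refine intervalIntegral.integral_congr fun t ht => ?_
        rw [uIcc_of_le (by positivity)] at ht
        exact hg0 t ht
      rw [h1]
      simp
    obtain ⟨η, hη, hwin⟩ := win_c hWk hAr hUT hD hM (f0 + feC) hf1s (g := g)
      (fun μ' hμ' u lam hu => by
        rw [← e0] at hμ' hu
        obtain ⟨-, J, hJ1, hJ2, -⟩ := h.spec.scar μ' hμ' u lam hu
        refine ⟨J, hJ1, ?_⟩
        have h4 := hJ2 g g.continuous
        rwa [hAv] at h4) N (1 / ((N : ℝ) + 1)) N (by positivity)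
    exact ⟨η, hη, fun f' hf' => ⟨g, hgT, fun ν hν u lam hu => hwin f' hf' ν hν u lam hu⟩⟩

/-- pigeonhole: a cluster point of the functions -/
theorem scale_k {a : ℕ → ℝ} {lam : ℕ → ℝ} (hlt : Tendsto lam atTop atTop)
    {b : ℕ → ℕ → ℝ} {δ : ℕ → ℝ} (hab : ∀ N j, a j ≤ b N j + δ N)
    (hδ : ∀ m : ℕ, ∃ N : ℕ, m ≤ N ∧ δ N ≤ 1 / (2 * ((m : ℝ) + 1)))
    (h : ∀ N : ℕ, ∃ Λ : ℝ, (N : ℝ) ≤ Λ ∧
      N * √Λ < ({j | b N j ≤ 1 / ((N : ℝ) + 1) ∧ lam j ≤ Λ}.ncard : ℝ)) (m : ℕ) :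
    ∃ Λ : ℝ, (m : ℝ) ≤ Λ ∧
      m * √Λ < ({j | a j ≤ 1 / ((m : ℝ) + 1) ∧ lam j ≤ Λ}.ncard : ℝ) := by
  obtain ⟨N, hN, hδN⟩ := hδ (2 * m + 1)
  obtain ⟨Λ, h1, h2⟩ := h N
  have h3 : (m : ℝ) ≤ N := by
    have : m ≤ N := by omega
    exact_mod_cast this
  have h30 : 2 * (m : ℝ) + 1 ≤ N := by exact_mod_cast hN
  refine ⟨Λ, h3.trans h1, (mul_le_mul_of_nonneg_right h3 (Real.sqrt_nonneg _)).trans_lt
    (h2.trans_le (Nat.cast_le.2 (ncard_le_ncard ?_ ?_)))⟩
  · rintro j ⟨h5, h6⟩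
    refine ⟨(hab N j).trans ?_, h6⟩
    have h7 : 1 / ((N : ℝ) + 1) ≤ 1 / (2 * ((m : ℝ) + 1)) :=
      one_div_le_one_div_of_le (by positivity) (by linarith)
    have h8 : δ N ≤ 1 / (2 * ((m : ℝ) + 1)) := by
      refine hδN.trans (one_div_le_one_div_of_le (by positivity) ?_)
      push_cast
      nlinarith [Nat.cast_nonneg (α := ℝ) m]
    have h9 : 1 / ((m : ℝ) + 1) = 1 / (2 * ((m : ℝ) + 1)) + 1 / (2 * ((m : ℝ) + 1)) := by
      field_simp
      norm_num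
    rw [h9]
    linarith
  · obtain ⟨j0, hj0⟩ := (hlt.eventually (eventually_gt_atTop Λ)).exists_forall_of_atTop
    refine (finite_Iio j0).subset fun j hj => ?_
    by_contra hcon
    exact absurd hj.2 (not_le.2 (hj0 j (not_lt.1 hcon)))

/-- **Generic metrics.** -/
theorem generic (hWk : BR.StWk) (hMs : StMissK) (hAr : StArC) {G : Type} [Group G] {P : Type}
    [MetricSpace P] [CompactSpace P] {Ω : Set ℂ} {a : G → ℂ → ℂ} {φ : ℂ → ℝ} {pr : ℂ → M}
    {q : Y → P} {R0 : ℝ} {γ₀ : G} (hA : Act G Ω a) (hI : Inva Ω φ a) (hpr : PrM Ω a pr)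
    (hγ : ∀ z ∈ Ω, a γ₀ z = z + 2 * π * Complex.I) (hR : ∀ z ∈ Ω, z.re < R0)
    (hUT : IsUT Ω φ pr q) {μ : Measure M} {D : Data M} (hD : Dt Ω φ pr μ D) (hM : Nonempty M) :
    ∀ᶠ f : closure (Nf Ω φ pr) in residual (closure (Nf Ω φ pr)),
      ∃ g : C(M, ℝ), (∀ x, 0 ≤ g x) ∧ Lc Ω pr {x | g x = 0} ∧
      ∀ ν : Measure M, IsArea Ω (fun z => φ z + f.1 (pr z)) pr ν → ν {x | g x = 0} = 0 ∧
      ∀ (u : ℕ → M → ℝ) (lam : ℕ → ℝ), WkB Ω (fun z => φ z + f.1 (pr z)) pr ν u lam →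
      Tendsto lam atTop atTop ∧ ∃ J : Set ℕ,
        (∀ C : ℝ, ∃ᶠ Λ : ℝ in atTop, C * √Λ < ({j | j ∈ J ∧ lam j ≤ Λ}.ncard : ℝ)) ∧
        Tendsto (fun j => ∫ x, g x * (u j x) ^ 2 ∂ν) (atTop ⊓ 𝓟 J) (𝓝 0) := by
  classical
  choose T hTc hT0 hT using fun R : ℕ =>
    hMs M P Ω φ pr q μ hUT hD.area (Real.exp ((R : ℝ) + 1 + 1))
  have hres : ∀ N R : ℕ, ∀ᶠ f : closure (Nf Ω φ pr) in residual (closure (Nf Ω φ pr)),
      (R : ℝ) < ‖f.1‖ ∨ Gd Ω φ pr N (T R) f.1 := by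
    intro N R
    have h1 : interior {f : closure (Nf Ω φ pr) | (R : ℝ) < ‖f.1‖ ∨ Gd Ω φ pr N (T R) f.1} ∈
        residual (closure (Nf Ω φ pr)) := by
      refine residual_of_dense_open isOpen_interior fun f => ?_
      rw [Metric.mem_closure_iff]
      intro ε hε
      rcases lt_or_ge (R : ℝ) ‖f.1‖ with hf | hf
      · refine ⟨f, ?_, by rw [dist_self]; exact hε⟩
        have ho : IsOpen {f : closure (Nf Ω φ pr) | (R : ℝ) < ‖f.1‖} :=
          isOpen_lt continuous_const (continuous_norm.comp continuous_subtype_val)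
        exact interior_maximal (fun f' hf' => Or.inl hf') ho hf
      · obtain ⟨f0, hf0, hd⟩ := Metric.mem_closure_iff.1 f.2 (min (ε / 3) 1) (by positivity)
        have hd1 : dist f.1 f0 < ε / 3 := hd.trans_le (min_le_left _ _)
        have hd2 : dist f.1 f0 < 1 := hd.trans_le (min_le_right _ _)
        have hn : ‖f0‖ < (R : ℝ) + 1 := by
          have h2 : ‖f0‖ ≤ ‖f.1‖ + ‖f0 - f.1‖ := by
            have := norm_add_le f.1 (f0 - f.1)
            rwa [add_sub_cancel] at this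
          rw [← dist_eq_norm, dist_comm] at h2
          linarith
        obtain ⟨f1, hf1, hd3, η, hη, hgood⟩ := dens hWk hAr hA hI hpr hγ hR hUT hD hM hf0
          (ε := min (ε / 3) 1) (by positivity) (min_le_right _ _) hn (hT R) N
        refine ⟨⟨f1, hf1⟩, ?_, ?_⟩
        · have ho : IsOpen {f : closure (Nf Ω φ pr) | ‖f.1 - f1‖ < η} :=
            isOpen_lt (continuous_norm.comp (continuous_subtype_val.sub continuous_const))
              continuous_const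
          refine interior_maximal (fun f' hf' => Or.inr (hgood f'.1 hf')) ho ?_
          show ‖f1 - f1‖ < η
          rw [sub_self, norm_zero]
          exact hη
        · show dist f.1 f1 < ε
          have h2 : dist f0 f1 ≤ ε / 3 := by
            rw [dist_comm, dist_eq_norm]
            exact hd3.trans (min_le_left _ _)
          linarith [dist_triangle f.1 f0 f1]
    filter_upwards [h1] with f hf
    have h2 : f ∈ {f : closure (Nf Ω φ pr) | (R : ℝ) < ‖f.1‖ ∨ Gd Ω φ pr N (T R) f.1} :=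
      interior_subset hf
    exact h2
  have hres2 : ∀ᶠ f : closure (Nf Ω φ pr) in residual (closure (Nf Ω φ pr)),
      ∀ N R : ℕ, (R : ℝ) < ‖f.1‖ ∨ Gd Ω φ pr N (T R) f.1 := by
    rw [eventually_countable_forall]
    intro N
    rw [eventually_countable_forall]
    exact hres N
  filter_upwards [hres2] with f hf
  obtain ⟨R, hRf⟩ := exists_nat_gt ‖f.1‖
  have hG : ∀ N : ℕ, Gd Ω φ pr N (T R) f.1 := fun N =>
    (hf N R).resolve_left (not_lt.2 hRf.le)
  choose g hgT hg using hG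
  -- a cluster point
  obtain ⟨g0, hg0T, θ, hθ, hg0⟩ := (hTc R).tendsto_subseq hgT
  obtain ⟨hg1, hg2, hg3⟩ := hT0 R g0 hg0T
  refine ⟨g0, hg1, hg3, fun ν hν => ⟨?_, fun u lam hu => ?_⟩⟩
  · have hfin : IsFiniteMeasure μ := (tFin M μ D hD.surf).1
    have h5 := (hAr M P Ω φ pr q f.1 μ hUT hD.area hfin).2 ν hν
    subst h5
    exact withDensity_absolutelyContinuous _ _ hg2
  have hlt := wk_tt hWk hAr hUT hD hM f.1 hν hu
  have h4 := dt_conf hAr hUT hD f.1
  have hfin : IsFiniteMeasure μ := (tFin M μ D hD.surf).1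
  have h5 := (hAr M P Ω φ pr q f.1 μ hUT hD.area hfin).2 ν hν
  have hu2 : ∀ j, ∫ x, u j x * u j x ∂ν = 1 := fun j => by
    have := hu.orth j j
    rwa [if_pos rfl] at this
  have hIu : ∀ j, Integrable (fun x => u j x * u j x) ν := fun j => by
    by_contra hcon
    have := hu2 j
    rw [integral_undef hcon] at this
    exact zero_ne_one this
  have hIg : ∀ (h : C(M, ℝ)) (j : ℕ), Integrable (fun x => h x * (u j x) ^ 2) ν := fun h j => by
    have h6 := (hIu j).bdd_mul (c := ‖h‖) h.continuous.aestronglyMeasurable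
      (Eventually.of_forall fun x => h.norm_coe_le_norm x)
    refine h6.congr (Eventually.of_forall fun x => ?_)
    simp only
    ring
  refine ⟨hlt, seq1 hlt (fun j => integral_nonneg fun x => mul_nonneg (hg1 x) (sq_nonneg _))
    (scale_k hlt (b := fun N j => ∫ x, g N x * (u j x) ^ 2 ∂ν)
      (δ := fun N => ‖g N - g0‖) (fun N j => ?_) (fun m => ?_) fun N => hg N ν hν u lam hu)⟩
  · have h6 : ∫ x, (g0 x - g N x) * (u j x) ^ 2 ∂ν ≤ ∫ x, ‖g N - g0‖ * (u j x * u j x) ∂ν := by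
      refine integral_mono ?_ ((hIu j).const_mul _) fun x => ?_
      · exact ((hIg g0 j).sub (hIg (g N) j)).congr (Eventually.of_forall fun x => by
          simp only [Pi.sub_apply]
          ring)
      · simp only
        have h7 : g0 x - g N x ≤ ‖g N - g0‖ := by
          have h8 := (g N - g0).norm_coe_le_norm x
          rw [Real.norm_eq_abs] at h8
          have h9 := neg_abs_le ((g N - g0) x)
          have h10 : (g N - g0) x = g N x - g0 x := rfl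
          linarith
        nlinarith [mul_self_nonneg (u j x)]
    rw [integral_const_mul, hu2 j, mul_one] at h6
    have h7 : ∫ x, (g0 x - g N x) * (u j x) ^ 2 ∂ν =
        (∫ x, g0 x * (u j x) ^ 2 ∂ν) - ∫ x, g N x * (u j x) ^ 2 ∂ν := by
      rw [← integral_sub (hIg g0 j) (hIg (g N) j)]
      refine integral_congr_ae (Eventually.of_forall fun x => ?_)
      simp only
      ring
    rw [h7] at h6
    linarith
  · have h6 : Tendsto (fun n => ‖g (θ n) - g0‖) atTop (𝓝 0) := by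
      have h7 := tendsto_iff_norm_sub_tendsto_zero.1 hg0
      exact h7
    have h8 : ∀ᶠ n in atTop, ‖g (θ n) - g0‖ < 1 / (2 * ((m : ℝ) + 1)) :=
      h6.eventually (gt_mem_nhds (by positivity))
    obtain ⟨n, hn1, hn2⟩ := (h8.and (hθ.tendsto_atTop.eventually (eventually_ge_atTop m))).exists
    exact ⟨θ n, hn2, hn1.le⟩

end

end Pool.Agent.H240.BS
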