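import Mathlib

/-!
# Lipschitz curves: null images and compactness
-/

set_option autoImplicit false

open Set Filter Topology MeasureTheory
open scoped NNReal ENNReal BoundedContinuousFunction

noncomputable section

namespace Pool.Agent.H240.BS

/-- the image of a set of real numbers under a Lipschitz map into the plane is a null set -/
theorem null_lip {S : Set ℝ} {g : S → ℂ} {L : ℝ≥0} (hg : LipschitzWith L g) :
    volume (range g) = 0 := by
  set e := Complex.measurableEquivRealProd with he
  have h1 : volume (e '' range g) = volume (range g) := by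
    have h2 : range g = e ⁻¹' (e '' range g) := (preimage_image_eq _ e.injective).symm
    have h3 := (Complex.volume_preserving_equiv_real_prod).measure_preimage_equiv (e '' range g)
    rw [← he, ← h2] at h3
    exact h3.symm
  rw [← h1]
  have hL : LipschitzWith 1 (fun z : ℂ => ((z.re, z.im) : ℝ × ℝ)) := by
    refine LipschitzWith.of_dist_le_mul fun z w => ?_
    rw [NNReal.coe_one, one_mul, Prod.dist_eq]
    refine max_le ?_ ?_
    · rw [Real.dist_eq, ← Complex.sub_re, Complex.dist_eq]
      exact Complex.abs_re_le_norm _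
    · rw [Real.dist_eq, ← Complex.sub_im, Complex.dist_eq]
      exact Complex.abs_im_le_norm _
  have h4 : e '' range g = range (fun t => (((g t).re, (g t).im) : ℝ × ℝ)) := by
    rw [← range_comp]
    rfl
  rw [h4]
  have h5 : LipschitzWith (1 * L) (fun t => (((g t).re, (g t).im) : ℝ × ℝ)) := hL.comp hg
  have h6 : dimH (range (fun t => (((g t).re, (g t).im) : ℝ × ℝ))) ≤ 1 := by
    rw [← image_univ]
    refine (h5.dimH_image_le univ).trans ?_
    have h7 : dimH (univ : Set S) ≤ dimH (univ : Set ℝ) := by
      have h8 : Isometry (fun t : S => (t : ℝ)) := isometry_subtype_coe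
      have h9 := h8.dimH_image (univ : Set S)
      rw [← h9]
      exact dimH_mono (subset_univ _)
    rw [Real.dimH_univ] at h7
    exact h7
  have h7 : (volume : Measure (ℝ × ℝ)) = μH[2] := hausdorffMeasure_prod_real.symm
  rw [h7]
  refine hausdorffMeasure_of_dimH_lt (d := (2 : ℝ≥0)) ?_
  refine lt_of_le_of_lt h6 ?_
  norm_num

/-- Lipschitz maps of a compact interval into a compact set form a compact set -/
theorem cpt_lip {ι : Type} [Fintype ι] (a b L : ℝ) (s : Set (ι → ℂ)) (hs : IsCompact s) :
    IsCompact {g : (Icc a b) →ᵇ (ι → ℂ) | (∀ t, g t ∈ s) ∧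
      ∀ t t', dist (g t) (g t') ≤ L * dist t t'} := by
  refine BoundedContinuousFunction.arzela_ascoli₂ s hs _ ?_ (fun f x hf => hf.1 x) ?_
  · have h1 : {g : (Icc a b) →ᵇ (ι → ℂ) | (∀ t, g t ∈ s) ∧
        ∀ t t', dist (g t) (g t') ≤ L * dist t t'} =
        (⋂ t, {g : (Icc a b) →ᵇ (ι → ℂ) | g t ∈ s}) ∩
          ⋂ t, ⋂ t', {g : (Icc a b) →ᵇ (ι → ℂ) | dist (g t) (g t') ≤ L * dist t t'} := by
      ext g
      simp only [mem_setOf_eq, mem_inter_iff, mem_iInter]
    rw [h1]
    have hev : ∀ t : Icc a b, Continuous fun g : (Icc a b) →ᵇ (ι → ℂ) => g t := fun t =>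
      (BoundedContinuousFunction.lipschitz_eval_const t).continuous
    refine (isClosed_iInter fun t => hs.isClosed.preimage (hev t)).inter
      (isClosed_iInter fun t => isClosed_iInter fun t' => ?_)
    exact isClosed_le ((hev t).dist (hev t')) continuous_const
  · intro x0
    rw [Metric.equicontinuousAt_iff]
    intro ε hε
    refine ⟨ε / (|L| + 1), by positivity, fun x hx f => ?_⟩
    have h1 := f.2.2 x x0
    have h2 : L * dist x x0 ≤ |L| * dist x x0 :=
      mul_le_mul_of_nonneg_right (le_abs_self _) dist_nonneg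
    have h3 : (|L| + 1) * dist x x0 < ε := by
      rw [lt_div_iff₀ (by positivity)] at hx
      linarith
    have h4 : 0 ≤ dist x x0 := dist_nonneg
    rw [dist_comm]
    calc dist (f.1 x) (f.1 x0) ≤ L * dist x x0 := h1
      _ ≤ (|L| + 1) * dist x x0 := by nlinarith
      _ < ε := h3

end Pool.Agent.H240.BS
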