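import Pool.Agent.H240.BS.Def
import Pool.Agent.H240.BS.Null
import Pool.Agent.H351.BR.Miss

/-!
# A compact family of functions with null zero sets
-/

set_option autoImplicit false
set_option linter.unusedSectionVars false

open Set Filter Topology MeasureTheory
open scoped ContDiff ComplexConjugate Real NNReal BoundedContinuousFunction

noncomputable section

namespace Pool.Agent.H240.BS

open Pool.Agent.Y262.EG Pool.Agent.Y262.EX

theorem missK : StMissK := by
  classical
  intro M P _ _ _ _ _ _ Ω φ pr q μ hU hμ R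
  have hloc : ∀ z0 : Ω, ∃ (F : M → ℂ) (s B : ℝ), 0 < s ∧ 0 ≤ B ∧ Metric.ball z0.1 s ⊆ Ω ∧
      (∀ z ∈ Metric.ball z0.1 s, F (pr z) = z - z0.1) ∧
      ∀ z ∈ Ω, DifferentiableAt ℝ (fun ζ => F (pr ζ)) z ∧
        ‖fderiv ℝ (fun ζ => F (pr ζ)) z‖ ≤ B * Real.exp (φ z) := by
    intro z0
    obtain ⟨F, s, B, hs, hB, h1, h2⟩ := Pool.Agent.H351.BR.exists_F hU z0.1 z0.2
    obtain ⟨r, hr, hr2⟩ := Metric.isOpen_iff.1 hU.opn z0.1 z0.2
    exact ⟨F, min s r, B, lt_min hs hr, hB,
      (Metric.ball_subset_ball (min_le_right _ _)).trans hr2,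
      fun z hz => h1 z (Metric.ball_subset_ball (min_le_left _ _) hz), h2⟩
  choose F s B hs hB hsub hF hFd using hloc
  have hFc : ∀ i, Continuous (F i) := fun i =>
    Pool.Agent.H351.BR.cont_of hU (F i) fun z hz =>
      (hFd i z hz).1.continuousAt.continuousWithinAt
  obtain ⟨t, ht⟩ := isCompact_univ.elim_finite_subcover
    (fun z : Ω => pr '' Metric.ball z.1 (s z)) (fun z => hU.opnp _ Metric.isOpen_ball (hsub z)) (by
      intro x _
      have hx : x ∈ pr '' Ω := by rw [hU.surjp]; trivial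
      obtain ⟨z, hz, rfl⟩ := hx
      exact mem_iUnion.2 ⟨⟨z, hz⟩, z, Metric.mem_ball_self (hs ⟨z, hz⟩), rfl⟩)
  set FF : M → (t → ℂ) := fun x i => F i.1 x with hFFd
  have hFF : Continuous FF := continuous_pi fun i => hFc i.1
  set L : ℝ := |R| * ∑ i : t, B i.1 with hLd
  have hL : 0 ≤ L := mul_nonneg (abs_nonneg _) (Finset.sum_nonneg fun i _ => hB i.1)
  have hBL : ∀ i : t, B i.1 * |R| ≤ L := by
    intro i
    rw [mul_comm]
    exact mul_le_mul_of_nonneg_left
      (Finset.single_le_sum (f := fun i : t => B i.1) (fun j _ => hB j.1) (Finset.mem_univ i))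
      (abs_nonneg _)
  have hπ : (0 : ℝ) ≤ 2 * π := by positivity
  have : Nonempty (Icc (0 : ℝ) (2 * π)) := ⟨⟨0, left_mem_Icc.2 hπ⟩⟩
  set A : Set ((Icc (0 : ℝ) (2 * π)) →ᵇ (t → ℂ)) := {g | (∀ τ, g τ ∈ range FF) ∧
    ∀ τ τ', dist (g τ) (g τ') ≤ L * dist τ τ'} with hAd
  have hA : IsCompact A := cpt_lip 0 (2 * π) L (range FF) (isCompact_range hFF)
  set Ψ : ((Icc (0 : ℝ) (2 * π)) →ᵇ (t → ℂ)) → C(M, ℝ) := fun g =>
    ⟨fun x => Metric.infDist (FF x) (range g), (Metric.continuous_infDist_pt _).comp hFF⟩ with hΨd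
  have hk : ∀ (g g' : (Icc (0 : ℝ) (2 * π)) →ᵇ (t → ℂ)) (y : t → ℂ),
      Metric.infDist y (range g) ≤ Metric.infDist y (range g') + dist g g' := by
    intro g g' y
    have h1 : Metric.infDist y (range g) - dist g g' ≤ Metric.infDist y (range g') := by
      rw [Metric.le_infDist (range_nonempty g')]
      rintro _ ⟨τ, rfl⟩
      have h2 : Metric.infDist y (range g) ≤ dist y (g τ) :=
        Metric.infDist_le_dist_of_mem (mem_range_self τ)
      have h3 := dist_triangle y (g' τ) (g τ)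
      have h4 : dist (g' τ) (g τ) ≤ dist g g' := by
        rw [dist_comm]
        exact BoundedContinuousFunction.dist_coe_le_dist τ
      linarith
    linarith
  have hΨ : LipschitzWith 1 Ψ := by
    refine LipschitzWith.of_dist_le_mul fun g g' => ?_
    rw [NNReal.coe_one, one_mul, ContinuousMap.dist_le dist_nonneg]
    intro x
    show |Metric.infDist (FF x) (range g) - Metric.infDist (FF x) (range g')| ≤ dist g g'
    rw [abs_le]
    have h1 := hk g g' (FF x)
    have h2 := hk g' g (FF x)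
    rw [dist_comm g' g] at h2
    constructor <;> linarith
  refine ⟨Ψ '' A, hA.image hΨ.continuous, ?_, ?_⟩
  · rintro _ ⟨g, hg, rfl⟩
    have hgL : ∀ (i : t) (τ τ' : Icc (0 : ℝ) (2 * π)),
        dist (g τ i + i.1.1) (g τ' i + i.1.1) ≤ L * dist τ τ' := by
      intro i τ τ'
      rw [dist_add_right]
      exact (dist_le_pi_dist (g τ) (g τ') i).trans (hg.2 τ τ')
    set S : t → Set ℂ := fun i => Metric.ball i.1.1 (s i.1) ∩ range (fun τ => g τ i + i.1.1) with hS
    have hSc : ∀ i, Continuous (fun τ => g τ i + i.1.1) := fun i => by fun_prop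
    have h0 : {x | (Ψ g) x = 0} ⊆ ⋃ i : t, pr '' S i := by
      intro x hx
      have hx1 : Metric.infDist (FF x) (range g) = 0 := hx
      have hx2 : FF x ∈ range g :=
        ((isCompact_range g.continuous).isClosed.mem_iff_infDist_zero (range_nonempty g)).2 hx1
      obtain ⟨τ, hτ⟩ := hx2
      have hx3 := ht (mem_univ x)
      simp only [mem_iUnion] at hx3
      obtain ⟨i, hi, z, hz, rfl⟩ := hx3
      refine mem_iUnion.2 ⟨⟨i, hi⟩, z, ⟨hz, τ, ?_⟩, rfl⟩
      have h1 : g τ ⟨i, hi⟩ = F i (pr z) := by rw [hτ]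
      show g τ ⟨i, hi⟩ + i.1 = z
      rw [h1, hF i z hz, sub_add_cancel]
    refine ⟨fun x => Metric.infDist_nonneg, ?_, t, inferInstance,
      fun i τ => g (projIcc 0 (2 * π) hπ τ) i + i.1.1, ⟨L, hL⟩, fun i => ?_, fun x hx => ?_⟩
    rotate_left
    · refine LipschitzWith.of_dist_le_mul fun τ τ' => (hgL i _ _).trans ?_
      refine mul_le_mul_of_nonneg_left ?_ hL
      have h9 := (LipschitzWith.projIcc hπ).dist_le_mul τ τ'
      rwa [NNReal.coe_one, one_mul] at h9
    · obtain ⟨i, z, ⟨hz1, τ, hz2⟩, hzx⟩ := mem_iUnion.1 (h0 hx)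
      refine mem_iUnion.2 ⟨i, z, ⟨hsub i.1 hz1, τ.1, τ.2, ?_⟩, hzx⟩
      have h9 : projIcc 0 (2 * π) hπ τ.1 = τ := projIcc_val hπ τ
      simp only
      rw [h9]
      exact hz2
    refine measure_mono_null h0 (measure_iUnion_null fun i => ?_)
    have h1 : volume (range (fun τ => g τ i + i.1.1)) = 0 := by
      refine null_lip (S := Icc (0 : ℝ) (2 * π)) (L := ⟨L, hL⟩) ?_
      exact LipschitzWith.of_dist_le_mul fun τ τ' => hgL i τ τ'
    have h2 : volume (S i) = 0 := measure_mono_null inter_subset_right h1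
    have h3 : MeasurableSet (S i) :=
      Metric.isOpen_ball.measurableSet.inter (isCompact_range (hSc i)).isClosed.measurableSet
    have h4 : InjOn pr (S i) := by
      intro z hz w hw hzw
      have h5 := hF i.1 z hz.1
      have h6 := hF i.1 w hw.1
      rw [hzw, h6] at h5
      exact (sub_left_inj.1 h5).symm
    rw [hμ (S i) h3 (inter_subset_left.trans (hsub i.1)) h4]
    exact setLIntegral_measure_zero _ _ h2
  · intro c hc hcΩ hcs
    have hder : ∀ (i : Ω) (τ : ℝ), HasDerivAt (fun τ => F i (pr (c τ)))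
        (fderiv ℝ (fun ζ => F i (pr ζ)) (c τ) (deriv c τ)) τ := by
      intro i τ
      have h1 : HasDerivAt c (deriv c τ) τ := (hc.differentiable one_ne_zero τ).hasDerivAt
      exact ((hFd i (c τ) (hcΩ τ)).1.hasFDerivAt).comp_hasDerivAt τ h1
    have hbd : ∀ (i : Ω) (τ : ℝ), ‖deriv (fun τ => F i (pr (c τ))) τ‖ ≤ B i * |R| := by
      intro i τ
      rw [(hder i τ).deriv]
      calc ‖fderiv ℝ (fun ζ => F i (pr ζ)) (c τ) (deriv c τ)‖ ≤
          ‖fderiv ℝ (fun ζ => F i (pr ζ)) (c τ)‖ * ‖deriv c τ‖ := ContinuousLinearMap.le_opNorm _ _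
        _ ≤ (B i * Real.exp (φ (c τ))) * (|R| * Real.exp (-φ (c τ))) :=
            mul_le_mul (hFd i (c τ) (hcΩ τ)).2
              ((hcs τ).trans (mul_le_mul_of_nonneg_right (le_abs_self _) (Real.exp_pos _).le))
              (norm_nonneg _) (mul_nonneg (hB i) (Real.exp_pos _).le)
        _ = B i * |R| * (Real.exp (φ (c τ)) * Real.exp (-φ (c τ))) := by ring
        _ = B i * |R| := by rw [← Real.exp_add, add_neg_cancel, Real.exp_zero, mul_one]
    have hlip : ∀ (i : Ω) (τ τ' : ℝ),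
        ‖F i (pr (c τ)) - F i (pr (c τ'))‖ ≤ B i * |R| * |τ - τ'| := by
      intro i τ τ'
      have := Convex.norm_image_sub_le_of_norm_deriv_le (𝕜 := ℝ)
        (f := fun τ => F i (pr (c τ))) (C := B i * |R|) (s := univ) (x := τ') (y := τ)
        (fun x _ => (hder i x).differentiableAt) (fun x _ => hbd i x) convex_univ (mem_univ _)
        (mem_univ _)
      rwa [Real.norm_eq_abs] at this
    have hcc : Continuous fun τ : Icc (0 : ℝ) (2 * π) => FF (pr (c τ)) := by
      refine continuous_pi fun i => ?_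
      have h1 : Continuous fun τ : ℝ => F i.1 (pr (c τ)) :=
        continuous_iff_continuousAt.2 fun τ => (hder i.1 τ).continuousAt
      exact h1.comp continuous_subtype_val
    set g : (Icc (0 : ℝ) (2 * π)) →ᵇ (t → ℂ) := BoundedContinuousFunction.mkOfCompact ⟨_, hcc⟩
      with hg
    have hgv : ∀ τ, g τ = FF (pr (c τ)) := fun τ => rfl
    refine ⟨Ψ g, ⟨g, ⟨fun τ => ⟨_, rfl⟩, fun τ τ' => ?_⟩, rfl⟩, fun τ hτ => ?_⟩
    · rw [dist_pi_le_iff (mul_nonneg hL dist_nonneg)]
      intro i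
      rw [dist_eq_norm]
      refine (hlip i.1 τ τ').trans ?_
      rw [Subtype.dist_eq, Real.dist_eq]
      exact mul_le_mul_of_nonneg_right (hBL i) (abs_nonneg _)
    · exact Metric.infDist_zero_of_mem ⟨⟨τ, hτ⟩, rfl⟩

end Pool.Agent.H240.BS
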