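import Pool.Agent.H240.BS.Fin4
import Pool.Agent.H240.BS.MissK
import Pool.Agent.H240.BR.Fin3

/-!
# Generic metrics: singular limits, the conclusion for group actions
-/

set_option autoImplicit false
set_option linter.unusedSectionVars false

open Set Filter Topology MeasureTheory
open scoped ContDiff ComplexConjugate Real ENNReal

noncomputable section

namespace Pool.Agent.H240.BS

open Pool.Agent.Y262.EG Pool.Agent.Y262.EX Pool.Agent.Y262.EL Pool.Agent.Y262.QE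
open Pool.Agent.Y264.QR Pool.Agent.H240.SC Pool.Agent.H240.SG Pool.Agent.H240.CG
open Pool.Agent.H240.AL Pool.Agent.H240.GU Pool.Agent.H240.GV Pool.Agent.H240.BR

/-- the laws collapse -/
theorem collapse {M : Type} [TopologicalSpace M] [CompactSpace M] [MeasurableSpace M]
    [BorelSpace M] {ν : Measure M} [IsFiniteMeasure ν] {g : C(M, ℝ)} (hg : ∀ x, 0 ≤ g x)
    (hg0 : ν {x | g x = 0} = 0) {u : ℕ → M → ℝ} (hu : ∀ j, MemLp (u j) 2 ν) {F : Filter ℕ}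
    (hJ : Tendsto (fun j => ∫ x, g x * (u j x) ^ 2 ∂ν) F (𝓝 0)) (ε : ℝ) (hε : 0 < ε) :
    Tendsto (fun j => ν {x | ε ≤ |u j x|}) F (𝓝 0) := by
  have hIg : ∀ j : ℕ, Integrable (fun x => g x * (u j x) ^ 2) ν := fun j => by
    have h6 := ((hu j).integrable_sq).bdd_mul (c := ‖g‖) g.continuous.aestronglyMeasurable
      (Eventually.of_forall fun x => g.norm_coe_le_norm x)
    exact h6
  -- the sets where `g` is small
  have h1 : Tendsto (fun n : ℕ => ν {x | g x < 1 / ((n : ℝ) + 1)}) atTop (𝓝 0) := by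
    have h2 : (⋂ n : ℕ, {x | g x < 1 / ((n : ℝ) + 1)}) = {x | g x = 0} := by
      ext x
      simp only [mem_iInter, mem_setOf_eq]
      constructor
      · intro h
        refine le_antisymm ?_ (hg x)
        refine le_of_forall_pos_le_add fun η hη => ?_
        obtain ⟨n, hn⟩ := exists_nat_one_div_lt hη
        linarith [h n]
      · intro h n
        rw [h]
        positivity
    have hanti : Antitone fun n : ℕ => {x | g x < 1 / ((n : ℝ) + 1)} := by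
      intro m n hmn x hx
      have h3 : (m : ℝ) ≤ n := by exact_mod_cast hmn
      have h4 : 1 / ((n : ℝ) + 1) ≤ 1 / ((m : ℝ) + 1) :=
        one_div_le_one_div_of_le (by positivity) (by linarith)
      exact lt_of_lt_of_le (show g x < 1 / ((n : ℝ) + 1) from hx) h4
    have h3 := tendsto_measure_iInter_atTop (μ := ν) (s := fun n : ℕ => {x | g x < 1 / ((n : ℝ) + 1)})
      (fun n => (isOpen_lt g.continuous continuous_const).measurableSet.nullMeasurableSet)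
      hanti ⟨0, measure_ne_top _ _⟩
    rwa [h2, hg0] at h3
  rw [ENNReal.tendsto_nhds_zero]
  intro δ hδ
  have hδ2 : 0 < δ / 2 := ENNReal.half_pos hδ.ne'
  obtain ⟨n, hn⟩ := ((ENNReal.tendsto_nhds_zero.1 h1) (δ / 2) hδ2).exists
  set κ : ℝ := 1 / ((n : ℝ) + 1) with hκ
  have hκp : 0 < κ := by positivity
  have h4 : Tendsto (fun j => ENNReal.ofReal ((κ * ε ^ 2)⁻¹ * ∫ x, g x * (u j x) ^ 2 ∂ν)) F
      (𝓝 0) := by
    have h5 := (hJ.const_mul ((κ * ε ^ 2)⁻¹))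
    rw [mul_zero] at h5
    have h6 := (ENNReal.continuous_ofReal.tendsto 0).comp h5
    rw [ENNReal.ofReal_zero] at h6
    exact h6
  filter_upwards [(ENNReal.tendsto_nhds_zero.1 h4) (δ / 2) hδ2] with j hj
  have h7 : {x | ε ≤ |u j x|} ⊆ {x | g x < κ} ∪ {x | κ * ε ^ 2 ≤ g x * (u j x) ^ 2} := by
    intro x hx
    rcases lt_or_ge (g x) κ with h | h
    · exact Or.inl h
    · refine Or.inr ?_
      have h8 : ε ^ 2 ≤ (u j x) ^ 2 := by
        rw [← sq_abs (u j x)]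
        exact pow_le_pow_left₀ hε.le hx 2
      exact mul_le_mul h h8 (by positivity) (hg x)
  have h9 : ν {x | κ * ε ^ 2 ≤ g x * (u j x) ^ 2} ≤
      ENNReal.ofReal ((κ * ε ^ 2)⁻¹ * ∫ x, g x * (u j x) ^ 2 ∂ν) := by
    have h10 := mul_meas_ge_le_integral_of_nonneg
      (Eventually.of_forall fun x => mul_nonneg (hg x) (sq_nonneg (u j x))) (hIg j) (κ * ε ^ 2)
    have hp : 0 < κ * ε ^ 2 := by positivity
    have h11 : ν.real {x | κ * ε ^ 2 ≤ g x * (u j x) ^ 2} ≤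
        (κ * ε ^ 2)⁻¹ * ∫ x, g x * (u j x) ^ 2 ∂ν := by
      rw [← div_eq_inv_mul, le_div_iff₀ hp, mul_comm]
      exact h10
    rw [← ofReal_measureReal]
    exact ENNReal.ofReal_le_ofReal h11
  calc ν {x | ε ≤ |u j x|} ≤ ν {x | g x < κ} + ν {x | κ * ε ^ 2 ≤ g x * (u j x) ^ 2} :=
        (measure_mono h7).trans (measure_union_le _ _)
    _ ≤ δ / 2 + δ / 2 := add_le_add hn (h9.trans hj)
    _ = δ := ENNReal.add_halves δ

/-- **Generic metrics: group actions.** -/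
theorem finC (G : Type) [Group G] (M : Type) [MetricSpace M] [CompactSpace M]
    [MeasurableSpace M] [BorelSpace M] (Ω : Set ℂ) (a : G → ℂ → ℂ) (φ : ℂ → ℝ) (pr : ℂ → M)
    (c : ℝ → ℂ) (R0 : ℝ) (γ₀ : G) (hA : Act G Ω a) (hI : Inva Ω φ a) (hpr : PrM Ω a pr)
    (hγ : ∀ z ∈ Ω, a γ₀ z = z + 2 * π * Complex.I) (hR : ∀ z ∈ Ω, z.re < R0)
    (hneg : ∀ z ∈ Ω, curv φ z < 0) (hc : Cu Ω φ pr c) :
    (0 : C(M, ℝ)) ∈ Nf Ω φ pr ∧
    (∀ f : C(M, ℝ), ∃ μ : Measure M, IsArea Ω (fun z => φ z + f (pr z)) pr μ ∧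
      IsFiniteMeasure μ ∧ ∃ u lam, WkB Ω (fun z => φ z + f (pr z)) pr μ u lam) ∧
    (∀ f : C(M, ℝ), ContDiffOn ℝ ∞ (fun z => f (pr z)) Ω → ∀ ν : Measure M,
      IsArea Ω (fun z => φ z + f (pr z)) pr ν → ∀ (lam : ℝ) (u : M → ℝ),
      (WkEf Ω (fun z => φ z + f (pr z)) pr ν lam u ↔
        ∃ v : M → ℝ, u =ᵐ[ν] v ∧ IsEf Ω (fun z => φ z + f (pr z)) pr lam v)) ∧
    ∀ᶠ f : closure (Nf Ω φ pr) in residual (closure (Nf Ω φ pr)),
      ∃ g : C(M, ℝ), (∀ x, 0 ≤ g x) ∧ Lc Ω pr {x | g x = 0} ∧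
      ∀ ν : Measure M, IsArea Ω (fun z => φ z + f.1 (pr z)) pr ν → IsFiniteMeasure ν ∧
      ν univ ≠ 0 ∧ ν {x | g x = 0} = 0 ∧
      ∀ (u : ℕ → M → ℝ) (lam : ℕ → ℝ), WkB Ω (fun z => φ z + f.1 (pr z)) pr ν u lam →
      Tendsto lam atTop atTop ∧ ∃ J : Set ℕ,
        (∀ C : ℝ, ∃ᶠ Λ : ℝ in atTop, C * √Λ < ({j | j ∈ J ∧ lam j ≤ Λ}.ncard : ℝ)) ∧
        Tendsto (fun j => ∫ x, g x * (u j x) ^ 2 ∂ν) (atTop ⊓ 𝓟 J) (𝓝 0) := by
  obtain ⟨k1, k2, k3, -⟩ := finB tAr G M Ω a φ pr c R0 γ₀ hA hI hpr hγ hR hneg hc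
  obtain ⟨P, iP, cP, q, hq, hUT⟩ := act_ut hA hI hpr
  have hGc := hc.gc hA hI hpr hγ
  obtain ⟨Γ, hAp⟩ := tFou c hGc.sm hGc.per
  obtain ⟨μ, D, hD, hM⟩ := dt_ex tCm hUT hGc hAp hR hneg
  refine ⟨k1, k2, k3, ?_⟩
  filter_upwards [generic tWk missK tAr hA hI hpr hγ hR hUT hD hM] with f hf
  obtain ⟨g, h1, h1', h2⟩ := hf
  refine ⟨g, h1, h1', fun ν hν => ⟨?_, ?_, h2 ν hν⟩⟩
  · have h4 := dt_conf tAr hUT hD f.1
    have hfin : IsFiniteMeasure μ := (tFin M μ D hD.surf).1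
    have h5 := (tAr M P Ω φ pr q f.1 μ hUT hD.area hfin).2 ν hν
    subst h5
    exact (tFin M _ _ h4.surf).1
  · have h4 := dt_conf tAr hUT hD f.1
    have hfin : IsFiniteMeasure μ := (tFin M μ D hD.surf).1
    have h5 := (tAr M P Ω φ pr q f.1 μ hUT hD.area hfin).2 ν hν
    subst h5
    exact ((tFin M _ _ h4.surf).2 univ isOpen_univ univ_nonempty).ne'

end Pool.Agent.H240.BS
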