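import Pool.Agent.H240.BS.Fin5

/-!
# Generic metrics: concentration on a closed null set
-/

set_option autoImplicit false
set_option linter.unusedSectionVars false

open Set Filter Topology MeasureTheory
open scoped Real

noncomputable section

namespace Pool.Agent.H240.BS

theorem conc {M : Type} [TopologicalSpace M] [CompactSpace M] [MeasurableSpace M]
    [BorelSpace M] {ν : Measure M} [IsFiniteMeasure ν] {h : C(M, ℝ)} (hh : ∀ x, 0 ≤ h x)
    {u : ℕ → M → ℝ} (hu : ∀ j, MemLp (u j) 2 ν) (hu1 : ∀ j, ∫ x, (u j x) ^ 2 ∂ν = 1)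
    {F : Filter ℕ} (hJ : Tendsto (fun j => ∫ x, h x * (u j x) ^ 2 ∂ν) F (𝓝 0)) (g : C(M, ℝ))
    (hg : ∀ x, h x = 0 → g x = 0) :
    Tendsto (fun j => ∫ x, g x * (u j x) ^ 2 ∂ν) F (𝓝 0) := by
  have hIg : ∀ (k : C(M, ℝ)) (j : ℕ), Integrable (fun x => k x * (u j x) ^ 2) ν := fun k j => by
    have h6 := ((hu j).integrable_sq).bdd_mul (c := ‖k‖) k.continuous.aestronglyMeasurable
      (Eventually.of_forall fun x => k.norm_coe_le_norm x)
    exact h6
  rw [Metric.tendsto_nhds]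
  intro ε hε
  set E : Set M := {x | ε / 2 ≤ |g x|} with hE
  have hEc : IsCompact E := (isClosed_le continuous_const g.continuous.abs).isCompact
  obtain ⟨κ, hκ, hκE⟩ : ∃ κ : ℝ, 0 < κ ∧ ∀ x ∈ E, κ ≤ h x := by
    rcases E.eq_empty_or_nonempty with h0 | h0
    · exact ⟨1, one_pos, fun x hx => by rw [h0] at hx; exact absurd hx (notMem_empty x)⟩
    · obtain ⟨x0, hx0, hmin⟩ := hEc.exists_isMinOn h0 h.continuous.continuousOn
      refine ⟨h x0, lt_of_le_of_ne (hh x0) fun h1 => ?_, fun x hx => hmin hx⟩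
      have h2 := hg x0 h1.symm
      have h3 : ε / 2 ≤ |g x0| := hx0
      rw [h2, abs_zero] at h3
      linarith
  have hb : ∀ x, |g x| ≤ ε / 2 + ‖g‖ / κ * h x := by
    intro x
    have h1 : |g x| ≤ ‖g‖ := g.norm_coe_le_norm x
    by_cases hx : x ∈ E
    · have h2 : ‖g‖ * κ ≤ ‖g‖ * h x := mul_le_mul_of_nonneg_left (hκE x hx) (norm_nonneg _)
      have h3 : ‖g‖ ≤ ‖g‖ / κ * h x := by
        rw [div_mul_eq_mul_div, le_div_iff₀ hκ]
        exact h2
      linarith
    · have h2 : |g x| < ε / 2 := not_le.1 hx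
      have h3 : 0 ≤ ‖g‖ / κ * h x := mul_nonneg (by positivity) (hh x)
      linarith
  have h4 : Tendsto (fun j => ‖g‖ / κ * ∫ x, h x * (u j x) ^ 2 ∂ν) F (𝓝 0) := by
    have := hJ.const_mul (‖g‖ / κ)
    rwa [mul_zero] at this
  filter_upwards [h4.eventually (gt_mem_nhds (half_pos hε))] with j hj
  rw [Real.dist_eq, sub_zero]
  have h5 : |∫ x, g x * (u j x) ^ 2 ∂ν| ≤ ∫ x, |g x * (u j x) ^ 2| ∂ν :=
    abs_integral_le_integral_abs
  have h6 : ∫ x, |g x * (u j x) ^ 2| ∂ν ≤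
      ∫ x, (ε / 2 * (u j x) ^ 2 + ‖g‖ / κ * (h x * (u j x) ^ 2)) ∂ν := by
    refine integral_mono (hIg g j).abs
      (((hu j).integrable_sq.const_mul _).add ((hIg h j).const_mul _)) fun x => ?_
    simp only
    rw [abs_mul, abs_of_nonneg (sq_nonneg (u j x))]
    have h7 := mul_le_mul_of_nonneg_right (hb x) (sq_nonneg (u j x))
    linarith
  rw [integral_add ((hu j).integrable_sq.const_mul _) ((hIg h j).const_mul _),
    integral_const_mul, integral_const_mul, hu1 j] at h6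
  linarith

end Pool.Agent.H240.BS
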